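import Mathlib

/-!
# Matrices of size two and order prime to `p` over a finite field of odd order `q`
-/

set_option autoImplicit false

namespace Pool.CND

namespace M2H76

theorem fin_of_card {F : Type} {q : ℕ} (hF : Nat.card F = q) (hq : 0 < q) : Finite F :=
  Nat.finite_of_card_ne_zero (by omega)

theorem ch {F : Type} [Field F] (M : Matrix (Fin 2) (Fin 2) F) :
    M ^ 2 = M.trace • M - M.det • (1 : Matrix (Fin 2) (Fin 2) F) := by
  ext i j
  fin_cases i <;> fin_cases j <;>
    simp [pow_two, Matrix.mul_apply, Fin.sum_univ_two, Matrix.trace, Matrix.det_fin_two] <;> ring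

theorem m2 {F : Type} [Field F] (p f q : ℕ) (hp : p.Prime) (hp2 : p ≠ 2) (hf : 1 ≤ f)
    (hq : q = p ^ f) (hF : Nat.card F = q) (M : Matrix (Fin 2) (Fin 2) F) (n : ℕ) (hn : ¬ p ∣ n)
    (hM : M ^ n = 1) :
    (M ^ ((q ^ 2 - 1) / 2) = 1 ∨ M ^ ((q ^ 2 - 1) / 2) = -1) ∧
      (M.det = 1 → M ^ ((q ^ 2 - 1) / 2) = 1) := by
  have hp' : Fact p.Prime := ⟨hp⟩
  have hq0 : 0 < q := by rw [hq]; exact pow_pos hp.pos f
  have hfin : Finite F := fin_of_card hF hq0
  have hft : Fintype F := Fintype.ofFinite F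
  have hFc : Fintype.card F = q := by rw [← hF, Nat.card_eq_fintype_card]
  have hch : CharP F p := charP_of_card_eq_prime_pow (f := f) (by rw [hFc, hq])
  have hodd : Odd q := by
    rw [hq]
    exact (hp.odd_of_ne_two hp2).pow
  obtain ⟨m, hm⟩ := hodd
  have e1 : (q ^ 2 - 1) / 2 = (q + 1) * m := by
    have : q ^ 2 - 1 = 2 * ((q + 1) * m) := by
      rw [hm]
      have : (2 * m + 1) ^ 2 = 2 * ((2 * m + 1 + 1) * m) + 1 := by ring
      omega
    omega
  have e2 : (q ^ 2 - 1) / 2 = (q - 1) * (m + 1) := by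
    rw [e1, hm, Nat.add_sub_cancel]
    ring
  have hn0 : n ≠ 0 := by
    rintro rfl
    exact hn (dvd_zero p)
  have hdet : M.det ≠ 0 := by
    intro h
    have h1 := congrArg Matrix.det hM
    rw [Matrix.det_pow, h, zero_pow hn0, Matrix.det_one] at h1
    exact zero_ne_one h1
  have hMu : IsUnit M := (Matrix.isUnit_iff_isUnit_det M).2 (isUnit_iff_ne_zero.2 hdet)
  set N := M ^ q with hN
  have hcm : Commute N M := Commute.pow_self M q
  have hdl : M.det ^ q = M.det := by rw [← hFc]; exact FiniteField.pow_card _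
  have htl : M.trace ^ q = M.trace := by rw [← hFc]; exact FiniteField.pow_card _
  -- Cayley-Hamilton for `N`
  have hNN : N ^ 2 = M.trace • N - M.det • (1 : Matrix (Fin 2) (Fin 2) F) := by
    have h1 : (M ^ 2) ^ q = (M.trace • M - M.det • (1 : Matrix (Fin 2) (Fin 2) F)) ^ q := by
      rw [ch M]
    have h2 : Commute (M.trace • M) (M.det • (1 : Matrix (Fin 2) (Fin 2) F)) :=
      (Commute.one_right M |>.smul_right _).smul_left _
    rw [hq, sub_pow_char_pow_of_commute _ _ h2, ← hq, smul_pow, smul_pow, one_pow, hdl, htl] at h1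
    rw [hN, ← pow_mul, mul_comm, pow_mul, h1]
  have hprod : (N - M) * (N + M - M.trace • (1 : Matrix (Fin 2) (Fin 2) F)) = 0 := by
    have h1 : (N - M) * (N + M - M.trace • (1 : Matrix (Fin 2) (Fin 2) F)) =
        N ^ 2 - M ^ 2 - M.trace • N + M.trace • M + (N * M - M * N) := by
      simp only [sub_mul, mul_sub, mul_add, mul_smul_comm, mul_one, pow_two, smul_sub]
      abel
    rw [h1, hcm.eq, hNN, ch M]
    simp
  by_cases hK : (N - M).det = 0
  · -- `N - M` is nilpotent
    have htr : (N - M).trace = 0 := by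
      rw [Matrix.trace_sub, hN, ← hFc, FiniteField.trace_pow_card, hFc, htl, sub_self]
    have hK2 : (N - M) ^ 2 = 0 := by rw [ch (N - M), htr, hK]; simp
    have hKp : (N - M) ^ p = 0 := by
      have : 2 ≤ p := hp.two_le
      rw [show p = 2 + (p - 2) by omega, pow_add, hK2, zero_mul]
    have h1 : N ^ p = M ^ p := by
      have h2 : N = M + (N - M) := by abel
      have h3 : Commute M (N - M) := (hcm.symm).sub_right (Commute.refl M)
      conv_lhs => rw [h2]
      rw [add_pow_char_of_commute _ h3, hKp, add_zero]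
    have h4 : (M ^ (q - 1)) ^ p = 1 := by
      have h5 : (M ^ (q - 1)) ^ p * M ^ p = 1 * M ^ p := by
        rw [one_mul, ← (Commute.pow_self M (q - 1)).mul_pow p, ← pow_succ, Nat.sub_add_cancel hq0,
          ← hN, h1]
      exact (hMu.pow p).mul_right_cancel h5
    have h6 : (M ^ (q - 1)) ^ n = 1 := by
      rw [← pow_mul, mul_comm, pow_mul, hM, one_pow]
    have h7 : M ^ (q - 1) = 1 := by
      have h8 := orderOf_dvd_of_pow_eq_one h4
      have h9 := orderOf_dvd_of_pow_eq_one h6
      have h10 : orderOf (M ^ (q - 1)) = 1 :=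
        Nat.eq_one_of_dvd_coprimes ((Nat.Prime.coprime_iff_not_dvd hp).2 hn) h8 h9
      exact orderOf_eq_one_iff.1 h10
    have h11 : M ^ ((q ^ 2 - 1) / 2) = 1 := by rw [e2, pow_mul, h7, one_pow]
    exact ⟨Or.inl h11, fun _ => h11⟩
  · have hu : IsUnit (N - M) := (Matrix.isUnit_iff_isUnit_det _).2 (isUnit_iff_ne_zero.2 hK)
    have h1 : N + M - M.trace • (1 : Matrix (Fin 2) (Fin 2) F) = 0 := by
      apply hu.mul_left_cancel
      rw [hprod, mul_zero]
    have h2 : N = M.trace • (1 : Matrix (Fin 2) (Fin 2) F) - M := by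
      have := sub_eq_zero.1 h1
      rw [← this]
      abel
    have h3 : M ^ (q + 1) = M.det • (1 : Matrix (Fin 2) (Fin 2) F) := by
      rw [pow_succ, ← hN, h2, sub_mul, smul_mul_assoc, one_mul, ← pow_two, ch M]
      abel
    have h4 : M ^ ((q ^ 2 - 1) / 2) = (M.det ^ m) • (1 : Matrix (Fin 2) (Fin 2) F) := by
      rw [e1, pow_mul, h3, smul_pow, one_pow]
    have h5 : M.det ^ m = 1 ∨ M.det ^ m = -1 := by
      apply mul_self_eq_one_iff.1
      have h6 := FiniteField.pow_card_sub_one_eq_one M.det hdet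
      rw [← pow_add, ← h6]
      congr 1
      omega
    rw [h4]
    refine ⟨?_, fun h => by rw [h, one_pow, one_smul]⟩
    rcases h5 with h | h
    · left; rw [h, one_smul]
    · right; rw [h, neg_one_smul]

end M2H76

end Pool.CND
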